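import Mathlib
import Pool.Agent.Q266.FacDvd

set_option autoImplicit false

/-!
The normalised `(10k+3)` sum is an integer for every `n ≥ 2`.
-/

namespace Pool.Agent.Results.MP_1cf91b_nt.Integrality

open Finset Q266.FacDvd

/-- The rational number `a_n` of the problem. -/
noncomputable def a (n : ℕ) : ℚ :=
  (∑ k ∈ Finset.range n, (10 * (k : ℚ) + 3) * ((2 * k).choose k : ℚ) ^ 2 * ((3 * k).choose k : ℚ) *
    8 ^ (n - 1 - k)) / ((n : ℚ) * (2 * (n : ℚ) + 1) * ((2 * n).choose n : ℚ))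

/-! ### The telescoping pair -/

/-- first member of the pair -/
noncomputable def F (n k : ℕ) : ℚ :=
  if k ≤ n then (-1) ^ k * ((2 * n + 2 * k).factorial : ℚ) * ((3 * n).factorial : ℚ) /
    (((n + k).factorial : ℚ) * ((n - k).factorial : ℚ) * (n.factorial : ℚ) ^ 2 *
      ((n + 2 * k).factorial : ℚ)) * (10 * n + 2 * k + 3) / 8 ^ n
  else 0

/-- second member of the pair -/
noncomputable def G (n k : ℕ) : ℚ :=
  if k + 1 ≤ n then -4 * (-1) ^ k * n * ((2 * n + 2 * k).factorial : ℚ) * ((3 * n).factorial : ℚ) /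
    (((n + k).factorial : ℚ) * ((n - k - 1).factorial : ℚ) * (n.factorial : ℚ) ^ 2 *
      ((n + 2 * k + 1).factorial : ℚ)) / 8 ^ n
  else 0

theorem pair (n k : ℕ) : F n (k + 1) - F n k = G (n + 1) k - G n k := by
  rcases lt_trichotomy n k with h | h | h
  · have h1 : ¬ (k + 1 ≤ n) := by omega
    have h2 : ¬ (k ≤ n) := by omega
    have h3 : ¬ (k + 1 ≤ n + 1) := by omega
    simp [F, G, h1, h2, h3]
  · subst h
    have h1 : ¬ (n + 1 ≤ n) := by omega
    have e1 : 2 * (n + 1) + 2 * n = 2 * n + 2 * n + 1 + 1 := by ring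
    have e2 : 3 * (n + 1) = 3 * n + 1 + 1 + 1 := by ring
    have e3 : n + 1 + n = n + n + 1 := by ring
    have e4 : n + 1 - n - 1 = 0 := by omega
    have e5 : n + 1 + 2 * n + 1 = 3 * n + 1 + 1 := by ring
    have e6 : n + 2 * n = 3 * n := by ring
    simp only [F, G, h1, le_refl, if_true, if_false, e1, e2, e3, e4, e5, e6, Nat.sub_self,
      Nat.factorial_succ, Nat.factorial_zero]
    push_cast
    have g1 : ((n + n).factorial : ℚ) ≠ 0 := by exact_mod_cast Nat.factorial_ne_zero _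
    have g2 : (n.factorial : ℚ) ≠ 0 := by exact_mod_cast Nat.factorial_ne_zero _
    have g3 : ((3 * n).factorial : ℚ) ≠ 0 := by exact_mod_cast Nat.factorial_ne_zero _
    have g4 : (n : ℚ) + n + 1 ≠ 0 := by positivity
    have g5 : (n : ℚ) + 1 ≠ 0 := by positivity
    have g6 : 3 * (n : ℚ) + 1 ≠ 0 := by positivity
    have g7 : 3 * (n : ℚ) + 1 + 1 ≠ 0 := by positivity
    field_simp
    ring
  · obtain ⟨m, rfl⟩ : ∃ m, n = k + 1 + m := ⟨n - k - 1, by omega⟩
    have h1 : k + 1 ≤ k + 1 + m := by omega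
    have h2 : k ≤ k + 1 + m := by omega
    have h3 : k + 1 ≤ k + 1 + m + 1 := by omega
    have s1 : k + 1 + m - (k + 1) = m := by omega
    have s2 : k + 1 + m - k = m + 1 := by omega
    have s3 : k + 1 + m + 1 - k - 1 = m + 1 := by omega
    have s4 : m + 1 - 1 = m := by omega
    have e1 : 2 * (k + 1 + m) + 2 * (k + 1) = 2 * (k + 1 + m) + 2 * k + 1 + 1 := by ring
    have e2 : 2 * (k + 1 + m + 1) + 2 * k = 2 * (k + 1 + m) + 2 * k + 1 + 1 := by ring
    have e3 : 3 * (k + 1 + m + 1) = 3 * (k + 1 + m) + 1 + 1 + 1 := by ring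
    have e4 : k + 1 + m + (k + 1) = k + 1 + m + k + 1 := by ring
    have e5 : k + 1 + m + 1 + k = k + 1 + m + k + 1 := by ring
    have e6 : k + 1 + m + 2 * (k + 1) = k + 1 + m + 2 * k + 1 + 1 := by ring
    have e7 : k + 1 + m + 1 + 2 * k + 1 = k + 1 + m + 2 * k + 1 + 1 := by ring
    have i1 : 2 * (k + 1 + m) + 2 * k = 4 * k + 2 * m + 2 := by ring
    have i2 : k + 1 + m + k = 2 * k + m + 1 := by ring
    have i3 : k + 1 + m + 2 * k = 3 * k + m + 1 := by ring
    simp only [F, G, h1, h2, h3, if_true, s1, s2, s3, s4, e1, e2, e3, e4, e5, e6, e7]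
    rw [Nat.factorial_succ (2 * (k + 1 + m) + 2 * k + 1), Nat.factorial_succ (2 * (k + 1 + m) + 2 * k),
      Nat.factorial_succ (3 * (k + 1 + m) + 1 + 1), Nat.factorial_succ (3 * (k + 1 + m) + 1),
      Nat.factorial_succ (3 * (k + 1 + m)), Nat.factorial_succ (k + 1 + m + k),
      Nat.factorial_succ (k + 1 + m + 2 * k + 1), Nat.factorial_succ (k + 1 + m + 2 * k),
      Nat.factorial_succ m, Nat.factorial_succ (k + 1 + m)]
    have g1 : ((2 * (k + 1 + m) + 2 * k).factorial : ℚ) ≠ 0 := by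
      exact_mod_cast Nat.factorial_ne_zero _
    have g2 : ((3 * (k + 1 + m)).factorial : ℚ) ≠ 0 := by exact_mod_cast Nat.factorial_ne_zero _
    have g3 : ((k + 1 + m + k).factorial : ℚ) ≠ 0 := by exact_mod_cast Nat.factorial_ne_zero _
    have g4 : ((k + 1 + m + 2 * k).factorial : ℚ) ≠ 0 := by exact_mod_cast Nat.factorial_ne_zero _
    have g5 : (m.factorial : ℚ) ≠ 0 := by exact_mod_cast Nat.factorial_ne_zero _
    have g6 : ((k + 1 + m).factorial : ℚ) ≠ 0 := by exact_mod_cast Nat.factorial_ne_zero _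
    generalize ((2 * (k + 1 + m) + 2 * k).factorial) = A at *
    generalize ((3 * (k + 1 + m)).factorial) = B at *
    generalize ((k + 1 + m + k).factorial) = C at *
    generalize ((k + 1 + m + 2 * k).factorial) = D at *
    generalize (m.factorial) = E at *
    generalize ((k + 1 + m).factorial) = H at *
    push_cast
    have q1 : (k : ℚ) + 1 + m + k + 1 ≠ 0 := by positivity
    have q2 : (k : ℚ) + 1 + m + 2 * k + 1 ≠ 0 := by positivity
    have q3 : (k : ℚ) + 1 + m + 2 * k + 1 + 1 ≠ 0 := by positivity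
    have q4 : (m : ℚ) + 1 ≠ 0 := by positivity
    have q5 : (k : ℚ) + 1 + m + 1 ≠ 0 := by positivity
    field_simp
    ring

theorem G_zero (k : ℕ) : G 0 k = 0 := by simp [G]

theorem F_of_lt (n k : ℕ) (h : n < k) : F n k = 0 := by
  have : ¬ (k ≤ n) := by omega
  simp [F, this]

theorem partial_sum (N k : ℕ) :
    (∑ n ∈ range N, F n (k + 1)) - ∑ n ∈ range N, F n k = G N k := by
  rw [← Finset.sum_sub_distrib]
  have h : ∀ n ∈ range N, F n (k + 1) - F n k = G (n + 1) k - G n k := fun n _ => pair n k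
  rw [Finset.sum_congr rfl h, Finset.sum_range_sub (fun n => G n k) N, G_zero, sub_zero]

theorem sum_eq (N : ℕ) : ∑ n ∈ range N, F n 0 = - ∑ k ∈ range N, G N k := by
  have h1 : ∑ k ∈ range N, G N k
      = ∑ k ∈ range N, ((∑ n ∈ range N, F n (k + 1)) - ∑ n ∈ range N, F n k) :=
    Finset.sum_congr rfl fun k _ => (partial_sum N k).symm
  have h2 := Finset.sum_range_sub (fun k => ∑ n ∈ range N, F n k) N
  rw [h1, h2]
  have h3 : ∑ n ∈ range N, F n N = 0 :=
    Finset.sum_eq_zero fun n hn => F_of_lt n N (Finset.mem_range.1 hn)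
  rw [h3]
  ring

theorem cb (k : ℕ) : ((2 * k).choose k : ℚ) = ((2 * k).factorial : ℚ) / (k.factorial : ℚ) ^ 2 := by
  rw [Nat.cast_choose ℚ (by omega : k ≤ 2 * k)]
  have : 2 * k - k = k := by omega
  rw [this]; ring

theorem ct (k : ℕ) : ((3 * k).choose k : ℚ)
    = ((3 * k).factorial : ℚ) / ((k.factorial : ℚ) * ((2 * k).factorial : ℚ)) := by
  rw [Nat.cast_choose ℚ (by omega : k ≤ 3 * k)]
  have : 3 * k - k = 2 * k := by omega
  rw [this]

theorem F_at_zero (k : ℕ) : F k 0 = (10 * (k : ℚ) + 3) * ((2 * k).choose k : ℚ) ^ 2 *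
    ((3 * k).choose k : ℚ) / 8 ^ k := by
  rw [cb, ct]
  have g1 : ((2 * k).factorial : ℚ) ≠ 0 := by exact_mod_cast Nat.factorial_ne_zero _
  have g2 : (k.factorial : ℚ) ≠ 0 := by exact_mod_cast Nat.factorial_ne_zero _
  simp only [F, Nat.zero_le, if_true, mul_zero, add_zero, Nat.sub_zero, pow_zero]
  push_cast
  field_simp
  ring

/-! ### Divisibility -/

/-- the denominator of the terms -/
def D (n k : ℕ) : ℕ :=
  (n + k).factorial * ((n - k - 1).factorial * ((n + 2 * k + 1).factorial * (2 * n + 1).factorial))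

/-- the numerator of the terms -/
def N (n k : ℕ) : ℕ := (2 * n + 2 * k).factorial * (3 * n).factorial

theorem floor_ineq (n k q : ℕ) (hk : k < n) (hq : 2 ≤ q) :
    (n + k) / q + ((n - k - 1) / q + ((n + 2 * k + 1) / q + (2 * n + 1) / q))
      ≤ (2 * n + 2 * k) / q + 3 * n / q := by
  have hq0 : 0 < q := by omega
  have hr : n % q < q := Nat.mod_lt _ hq0
  have hs : k % q < q := Nat.mod_lt _ hq0
  have en := Nat.div_add_mod n q
  have ek := Nat.div_add_mod k q
  generalize n % q = r at *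
  generalize k % q = s at *
  generalize n / q = x at *
  generalize k / q = y at *
  subst en
  subst ek
  have t1 : (q * x + r + (q * y + s)) / q = x + y + (r + s) / q := by
    rw [show q * x + r + (q * y + s) = q * (x + y) + (r + s) by ring, Nat.mul_add_div hq0]
  have t2 : (q * x + r + 2 * (q * y + s) + 1) / q = x + 2 * y + (r + 2 * s + 1) / q := by
    rw [show q * x + r + 2 * (q * y + s) + 1 = q * (x + 2 * y) + (r + 2 * s + 1) by ring,
      Nat.mul_add_div hq0]
  have t3 : (2 * (q * x + r) + 1) / q = 2 * x + (2 * r + 1) / q := by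
    rw [show 2 * (q * x + r) + 1 = q * (2 * x) + (2 * r + 1) by ring, Nat.mul_add_div hq0]
  have t4 : (2 * (q * x + r) + 2 * (q * y + s)) / q = 2 * x + 2 * y + (2 * r + 2 * s) / q := by
    rw [show 2 * (q * x + r) + 2 * (q * y + s) = q * (2 * x + 2 * y) + (2 * r + 2 * s) by ring,
      Nat.mul_add_div hq0]
  have t5 : 3 * (q * x + r) / q = 3 * x + 3 * r / q := by
    rw [show 3 * (q * x + r) = q * (3 * x) + 3 * r by ring, Nat.mul_add_div hq0]
  rw [t1, t2, t3, t4, t5]
  have d1 : (r + s) / q < 2 := Nat.div_lt_of_lt_mul (by omega)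
  have d2 : (r + 2 * s + 1) / q < 3 := Nat.div_lt_of_lt_mul (by omega)
  have d3 : (2 * r + 1) / q < 2 := Nat.div_lt_of_lt_mul (by omega)
  have d4 : (2 * r + 2 * s) / q < 4 := Nat.div_lt_of_lt_mul (by omega)
  have d5 : 3 * r / q < 3 := Nat.div_lt_of_lt_mul (by omega)
  have u1 := Nat.div_mul_le_self (r + s) q
  have u2 := Nat.div_mul_le_self (r + 2 * s + 1) q
  have u3 := Nat.div_mul_le_self (2 * r + 1) q
  have u4 := Nat.lt_div_mul_add (a := 2 * r + 2 * s) hq0
  have u5 := Nat.lt_div_mul_add (a := 3 * r) hq0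
  rcases lt_or_ge s r with hsr | hsr
  · have hxy : y ≤ x := by
      by_contra hlt
      have h1 : q * (x + 1) ≤ q * y := Nat.mul_le_mul_left q (by omega)
      have h2 : q * (x + 1) = q * x + q := by ring
      omega
    obtain ⟨w, rfl⟩ := Nat.exists_eq_add_of_le hxy
    have t6 : (q * (y + w) + r - (q * y + s) - 1) / q = w := by
      rw [show q * (y + w) + r - (q * y + s) - 1 = q * w + (r - s - 1) by
        rw [mul_add]; omega, Nat.mul_add_div hq0, Nat.div_eq_of_lt (by omega), add_zero]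
    rw [t6]
    generalize (r + s) / q = e1 at *
    generalize (r + 2 * s + 1) / q = e2 at *
    generalize (2 * r + 1) / q = e3 at *
    generalize (2 * r + 2 * s) / q = e4 at *
    generalize 3 * r / q = e5 at *
    clear t1 t2 t3 t4 t5 t6 hk hxy
    interval_cases e1 <;> interval_cases e2 <;> interval_cases e3 <;> interval_cases e4 <;>
      interval_cases e5 <;> omega
  · have hxy : y + 1 ≤ x := by
      by_contra hlt
      have h1 : q * x ≤ q * y := Nat.mul_le_mul_left q (by omega)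
      omega
    obtain ⟨w, rfl⟩ := Nat.exists_eq_add_of_le hxy
    have t6 : (q * (y + 1 + w) + r - (q * y + s) - 1) / q = w := by
      rw [show q * (y + 1 + w) + r - (q * y + s) - 1 = q * w + (q + r - s - 1) by
        rw [mul_add, mul_add]; omega, Nat.mul_add_div hq0, Nat.div_eq_of_lt (by omega), add_zero]
    rw [t6]
    generalize (r + s) / q = e1 at *
    generalize (r + 2 * s + 1) / q = e2 at *
    generalize (2 * r + 1) / q = e3 at *
    generalize (2 * r + 2 * s) / q = e4 at *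
    generalize 3 * r / q = e5 at *
    clear t1 t2 t3 t4 t5 t6 hk hxy
    interval_cases e1 <;> interval_cases e2 <;> interval_cases e3 <;> interval_cases e4 <;>
      interval_cases e5 <;> omega

theorem D_dvd (n k : ℕ) (hk : k < n) : D n k ∣ N n k := by
  have h := fac_dvd [n + k, n - k - 1, n + 2 * k + 1, 2 * n + 1] [2 * n + 2 * k, 3 * n] (by
    intro q hq
    simpa using floor_ineq n k q hk hq)
  simpa [D, N] using h

theorem vD (n k : ℕ) : (D n k).factorization 2
    = v (n + k) + (v (n - k - 1) + (v (n + 2 * k + 1) + v (2 * n + 1))) := by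
  unfold D v
  have h : ∀ m : ℕ, m.factorial ≠ 0 := Nat.factorial_ne_zero
  rw [Nat.factorization_mul (h _) (mul_ne_zero (h _) (mul_ne_zero (h _) (h _))),
    Nat.factorization_mul (h _) (mul_ne_zero (h _) (h _)), Nat.factorization_mul (h _) (h _)]
  rfl

theorem vN (n k : ℕ) : (N n k).factorization 2 = v (2 * n + 2 * k) + v (3 * n) := by
  unfold N v
  have h : ∀ m : ℕ, m.factorial ≠ 0 := Nat.factorial_ne_zero
  rw [Nat.factorization_mul (h _) (h _)]
  rfl

theorem two_lt (n k : ℕ) (hn : 2 ≤ n) (hk : k < n) :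
    (D n k).factorization 2 < (N n k).factorization 2 := by
  rw [vD, vN, v_succ_double, show 2 * n + 2 * k = 2 * (n + k) by ring, v_double]
  by_cases hp : ∃ j : ℕ, n = 2 ^ j
  · obtain ⟨j, rfl⟩ := hp
    have h1 := v_two_pow j
    have h2 := v_three_two_pow j
    obtain ⟨i, hi⟩ : ∃ i, 2 ^ j = 2 * i := by
      rcases j with _ | j
      · simp at hn
      · exact ⟨2 ^ j, by rw [pow_succ]; ring⟩
    have h3 : v (2 ^ j + 2 * k + 1) + 1 ≤ 2 ^ j + 2 * k := by
      rw [hi, show 2 * i + 2 * k + 1 = 2 * (i + k) + 1 by ring, v_succ_double]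
      have := v_lt (i + k) (by omega)
      omega
    have h4 := v_le (2 ^ j - k - 1)
    omega
  · have h1 : v n + 2 ≤ n := v_add_two_le n (by omega) (fun j hj => hp ⟨j, hj⟩)
    obtain ⟨m, rfl⟩ : ∃ m, n = k + 1 + m := ⟨n - k - 1, by omega⟩
    have s1 : k + 1 + m - k - 1 = m := by omega
    have h2 := v_add_le (2 * m + 1) (k + 1 + m + 2 * k + 1)
    rw [v_succ_double] at h2
    have h3 : 2 * m + 1 + (k + 1 + m + 2 * k + 1) = 3 * (k + 1 + m) := by ring
    rw [h3] at h2
    rw [s1]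
    omega

theorem two_D_dvd (n k : ℕ) (hn : 2 ≤ n) (hk : k < n) : ∃ t : ℕ, N n k = 2 * D n k * t := by
  obtain ⟨t, ht⟩ := D_dvd n k hk
  have hD : D n k ≠ 0 := by
    unfold D
    positivity
  have hN : N n k ≠ 0 := by
    unfold N
    positivity
  have ht0 : t ≠ 0 := by
    rintro rfl
    exact hN (by simpa using ht)
  have h2 := two_lt n k hn hk
  have h3 : (N n k).factorization 2 = (D n k).factorization 2 + t.factorization 2 := by
    rw [ht, Nat.factorization_mul hD ht0]
    rfl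
  have h4 : t.factorization 2 ≠ 0 := by omega
  have h5 : 2 ∣ t := Nat.dvd_of_factorization_pos h4
  obtain ⟨u, rfl⟩ := h5
  exact ⟨u, by rw [ht]; ring⟩

/-! ### The theorem -/

theorem a_eq (n : ℕ) (hn : 1 ≤ n) :
    a n = ∑ k ∈ range n, (-1) ^ k * ((N n k : ℕ) : ℚ) / (2 * ((D n k : ℕ) : ℚ)) := by
  have hS : (∑ k ∈ Finset.range n, (10 * (k : ℚ) + 3) * ((2 * k).choose k : ℚ) ^ 2 *
      ((3 * k).choose k : ℚ) * 8 ^ (n - 1 - k)) = 8 ^ (n - 1) * ∑ k ∈ range n, F k 0 := by
    rw [Finset.mul_sum]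
    apply Finset.sum_congr rfl
    intro k hk
    rw [Finset.mem_range] at hk
    rw [F_at_zero]
    have : (8 : ℚ) ^ (n - 1) = 8 ^ (n - 1 - k) * 8 ^ k := by
      rw [← pow_add]; congr 1; omega
    rw [this]
    have h8 : (8 : ℚ) ^ k ≠ 0 := by positivity
    field_simp
  unfold a
  rw [hS, sum_eq, ← Finset.sum_neg_distrib, Finset.mul_sum, Finset.sum_div]
  apply Finset.sum_congr rfl
  intro k hk
  rw [Finset.mem_range] at hk
  obtain ⟨m, rfl⟩ : ∃ m, n = m + 1 := ⟨n - 1, by omega⟩
  have h1 : k + 1 ≤ m + 1 := by omega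
  simp only [G, h1, if_true, N, D, cb]
  rw [Nat.factorial_succ (2 * (m + 1))]
  have h : ∀ j : ℕ, (j.factorial : ℚ) ≠ 0 := fun j => by exact_mod_cast Nat.factorial_ne_zero j
  have g1 := h (m + 1 + k)
  have g2 := h (m + 1 - k - 1)
  have g3 := h (m + 1)
  have g4 := h (m + 1 + 2 * k + 1)
  have g5 := h (2 * (m + 1))
  generalize ((m + 1 + k).factorial) = A at *
  generalize ((m + 1 - k - 1).factorial) = B at *
  generalize ((m + 1).factorial) = C at *
  generalize ((m + 1 + 2 * k + 1).factorial) = E at *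
  generalize ((2 * (m + 1)).factorial) = H at *
  push_cast
  have q1 : (m : ℚ) + 1 ≠ 0 := by positivity
  have q2 : 2 * ((m : ℚ) + 1) + 1 ≠ 0 := by positivity
  rw [pow_succ]
  field_simp
  ring

/-- `a_n` is an integer for every `n ≥ 2`. -/
theorem result : ∀ n : ℕ, 2 ≤ n → ∃ z : ℤ, a n = (z : ℚ) := by
  intro n hn
  rw [a_eq n (by omega)]
  have h : ∀ k : ℕ, ∃ z : ℤ, k < n →
      (-1) ^ k * ((N n k : ℕ) : ℚ) / (2 * ((D n k : ℕ) : ℚ)) = (z : ℚ) := by
    intro k
    by_cases hk : k < n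
    · obtain ⟨t, ht⟩ := two_D_dvd n k hn hk
      refine ⟨(-1) ^ k * (t : ℤ), fun _ => ?_⟩
      have hD : ((D n k : ℕ) : ℚ) ≠ 0 := by
        have : D n k ≠ 0 := by unfold D; positivity
        exact_mod_cast this
      rw [ht]
      push_cast
      field_simp
    · exact ⟨0, fun h => absurd h hk⟩
  choose z hz using h
  refine ⟨∑ k ∈ range n, z k, ?_⟩
  push_cast
  exact Finset.sum_congr rfl fun k hk => hz k (Finset.mem_range.1 hk)

end Pool.Agent.Results.MP_1cf91b_nt.Integrality
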